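import Mathlib

/-!
# Point sets of oval type over a field inside a larger field

`F` is an infinite field, `K` a countable field containing it.  We construct a set
`S ⊆ F × K` such that every horizontal line contains exactly one point of `S` and every line of
finite nonzero slope through a point of `S` contains exactly one further point of `S`.
-/

set_option autoImplicit false

namespace Pool.Agent.U657.TGQ

variable {F K : Type} [Field F] [Field K] [Algebra F K]

/-- The determinant that decides whether three points are collinear. -/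
def det3 (p q r : F × K) : K :=
  (q.2 - p.2) * (algebraMap F K r.1 - algebraMap F K p.1) -
    (r.2 - p.2) * (algebraMap F K q.1 - algebraMap F K p.1)

lemma det3_swap (p q r : F × K) : det3 p r q = - det3 p q r := by
  unfold det3; ring

lemma det3_rot (p q r : F × K) : det3 q r p = det3 p q r := by
  unfold det3; ring

/-- Partial oval-like sets. -/
structure Good (S : Set (F × K)) : Prop where
  fst : ∀ p ∈ S, ∀ q ∈ S, p.1 = q.1 → p = q
  snd : ∀ p ∈ S, ∀ q ∈ S, p.2 = q.2 → p = q
  tri : ∀ p ∈ S, ∀ q ∈ S, ∀ r ∈ S, p ≠ q → p ≠ r → det3 p q r = 0 → q = r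

lemma good_insert {S : Set (F × K)} (hS : Good S) (n : F × K)
    (h1 : ∀ p ∈ S, p.1 ≠ n.1) (h2 : ∀ p ∈ S, p.2 ≠ n.2)
    (h3 : ∀ p ∈ S, ∀ q ∈ S, p ≠ q → det3 p q n ≠ 0) : Good (insert n S) := by
  constructor
  · rintro p (rfl | hp) q (rfl | hq) h
    · rfl
    · exact absurd h.symm (h1 q hq)
    · exact absurd h (h1 p hp)
    · exact hS.fst p hp q hq h
  · rintro p (rfl | hp) q (rfl | hq) h
    · rfl
    · exact absurd h.symm (h2 q hq)
    · exact absurd h (h2 p hp)
    · exact hS.snd p hp q hq h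
  · rintro p (rfl | hp) q (rfl | hq) r (rfl | hr) hpq hpr h
    · rfl
    · exact absurd rfl hpq
    · exact absurd rfl hpr
    · by_contra hne
      exact h3 q hq r hr hne (by rw [det3_rot]; exact h)
    · rfl
    · by_contra hne
      refine h3 p hp r hr hpr ?_
      rw [det3_swap, h, neg_zero]
    · exact absurd h (h3 p hp q hq hpq)
    · exact hS.tri p hp q hq r hr hpq hpr h

/-- The extension step: on the line `y = u + v x` there is room for a new point. -/
lemma exists_point [Infinite F] {S : Set (F × K)} (hfin : S.Finite) (hS : Good S) (u v : K)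
    (h1 : ∀ p ∈ S, ∀ q ∈ S, p.2 = u + v * algebraMap F K p.1 →
      q.2 = u + v * algebraMap F K q.1 → p = q)
    (h2 : v = 0 → ∀ p ∈ S, p.2 ≠ u) :
    ∃ a : F, Good (insert (a, u + v * algebraMap F K a) S) ∧ ∀ p ∈ S, p.1 ≠ a := by
  have inj : Function.Injective (algebraMap F K) := (algebraMap F K).injective
  have hb1 : (⋃ p ∈ S, {a : F | p.1 = a}).Finite := by
    refine hfin.biUnion fun p _ => ?_
    refine Set.Subsingleton.finite ?_
    intro a ha b hb
    exact (ha : p.1 = a).symm.trans hb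
  have hb2 : (⋃ p ∈ S, {a : F | p.2 = u + v * algebraMap F K a}).Finite := by
    refine hfin.biUnion fun p hp => ?_
    refine Set.Subsingleton.finite ?_
    intro a ha b hb
    have ha' : p.2 = u + v * algebraMap F K a := ha
    have hb' : p.2 = u + v * algebraMap F K b := hb
    by_cases hv : v = 0
    · exact absurd (by rw [ha', hv]; ring) (h2 hv p hp)
    · apply inj
      apply mul_left_cancel₀ hv
      linear_combination hb' - ha'
  have hb3 : (⋃ p ∈ S, ⋃ q ∈ S, {a : F | p ≠ q ∧ det3 p q (a, u + v * algebraMap F K a) = 0}).Finite := by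
    refine hfin.biUnion fun p hp => hfin.biUnion fun q hq => ?_
    refine Set.Subsingleton.finite ?_
    rintro a ⟨hpq, ha⟩ b ⟨-, hb⟩
    by_contra hab
    have hab' : algebraMap F K a - algebraMap F K b ≠ 0 := by
      intro h
      exact hab (inj (sub_eq_zero.mp h))
    have hd : algebraMap F K q.1 - algebraMap F K p.1 ≠ 0 := by
      intro h
      exact hpq (hS.fst p hp q hq (inj (sub_eq_zero.mp h)).symm)
    unfold det3 at ha hb
    simp only at ha hb
    -- the slope of the line through p and q is v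
    have hs : (q.2 - p.2) = v * (algebraMap F K q.1 - algebraMap F K p.1) := by
      apply mul_right_cancel₀ hab'
      linear_combination ha - hb
    have hp' : p.2 = u + v * algebraMap F K p.1 := by
      apply mul_right_cancel₀ hd
      rw [hs] at ha
      linear_combination ha
    have hq' : q.2 = u + v * algebraMap F K q.1 := by
      linear_combination hs + hp'
    exact hpq (h1 p hp q hq hp' hq')
  obtain ⟨a, ha⟩ := ((hb1.union hb2).union hb3).exists_notMem
  simp only [Set.mem_union, Set.mem_iUnion, Set.mem_ofPred_eq, not_or, not_exists, not_and] at ha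
  obtain ⟨⟨ha1, ha2⟩, ha3⟩ := ha
  refine ⟨a, good_insert hS _ ?_ ?_ ?_, ?_⟩
  · intro p hp; exact ha1 p hp
  · intro p hp; exact ha2 p hp
  · intro p hp q hq hpq h
    exact ha3 p hp q hq hpq h
  · intro p hp; exact ha1 p hp

/-- A task is done by a set `S`: the horizontal line `y = c` has a point of `S`, or the line of
slope `m` through the point of `S` with abscissa `a` has another point. -/
def Done (t : K ⊕ (F × K)) (S : Set (F × K)) : Prop :=
  match t with
  | Sum.inl c => ∃ p ∈ S, p.2 = c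
  | Sum.inr (a, m) => m ≠ 0 → ∀ b, (a, b) ∈ S → ∃ p ∈ S, p.1 ≠ a ∧
      p.2 - b = m * (algebraMap F K p.1 - algebraMap F K a)

lemma exists_step [Infinite F] (t : K ⊕ (F × K)) (S : Set (F × K)) (hfin : S.Finite)
    (hS : Good S) : ∃ S' : Set (F × K), S ⊆ S' ∧ S'.Finite ∧ Good S' ∧ Done t S' := by
  have inj : Function.Injective (algebraMap F K) := (algebraMap F K).injective
  by_cases hd : Done t S
  · exact ⟨S, subset_rfl, hfin, hS, hd⟩
  rcases t with c | ⟨a, m⟩
  · have hd' : ∀ p ∈ S, p.2 ≠ c := by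
      intro p hp h
      exact hd ⟨p, hp, h⟩
    obtain ⟨a, ha, -⟩ := exists_point hfin hS c 0
      (by
        intro p hp q hq h _
        exact absurd (by rw [h]; ring) (hd' p hp))
      (fun _ => hd')
    refine ⟨_, Set.subset_insert _ _, hfin.insert _, ha, ?_⟩
    exact ⟨_, Set.mem_insert _ _, by simp⟩
  · have hd' : m ≠ 0 ∧ ∃ b, (a, b) ∈ S ∧ ∀ p ∈ S, p.1 ≠ a →
        p.2 - b ≠ m * (algebraMap F K p.1 - algebraMap F K a) := by
      by_contra hcon
      apply hd
      intro hm b hb
      by_contra hcon2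
      apply hcon
      refine ⟨hm, b, hb, ?_⟩
      intro p hp h1 h2
      exact hcon2 ⟨p, hp, h1, h2⟩
    obtain ⟨hm, b, hb, hno⟩ := hd'
    have key : ∀ p ∈ S, p.2 = (b - m * algebraMap F K a) + m * algebraMap F K p.1 →
        p = (a, b) := by
      intro p hp h
      by_cases h1 : p.1 = a
      · exact hS.fst p hp _ hb h1
      · exact absurd (by rw [h]; ring) (hno p hp h1)
    obtain ⟨a', ha', hne⟩ := exists_point hfin hS (b - m * algebraMap F K a) m
      (by
        intro p hp q hq h h'
        rw [key p hp h, key q hq h'])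
      (fun h => absurd h hm)
    refine ⟨_, Set.subset_insert _ _, hfin.insert _, ha', ?_⟩
    intro _ b' hb'
    have hbb : (a, b') = ((a, b) : F × K) :=
      ha'.fst _ hb' _ (Set.mem_insert_of_mem _ hb) rfl
    have hbb' : b' = b := (Prod.ext_iff.mp hbb).2
    subst hbb'
    refine ⟨_, Set.mem_insert _ _, ?_, ?_⟩
    · exact (hne _ hb).symm
    · simp only
      ring

variable (F K) in
/-- Oval-like sets exist over countable fields. -/
theorem exists_oval [Infinite F] [Countable K] :
    ∃ S : Set (F × K),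
      (∀ p ∈ S, ∀ q ∈ S, p.1 = q.1 → p = q) ∧
      (∀ c : K, ∃ p ∈ S, p.2 = c) ∧
      (∀ p ∈ S, ∀ q ∈ S, p.2 = q.2 → p = q) ∧
      (∀ p ∈ S, ∀ m : K, m ≠ 0 → ∃ q ∈ S, q ≠ p ∧
        q.2 - p.2 = m * (algebraMap F K q.1 - algebraMap F K p.1)) ∧
      (∀ p ∈ S, ∀ q ∈ S, ∀ r ∈ S, p ≠ q → p ≠ r → det3 p q r = 0 → q = r) := by
  classical
  have hF : Countable F := (algebraMap F K).injective.countable
  obtain ⟨τ, hτ⟩ := exists_surjective_nat (K ⊕ (F × K))
  let X := {S : Set (F × K) // S.Finite ∧ Good S}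
  have stepX : ∀ (n : ℕ) (S : X), ∃ S' : X, S.1 ⊆ S'.1 ∧ Done (τ (Nat.unpair n).1) S'.1 := by
    intro n S
    obtain ⟨S', h1, h2, h3, h4⟩ := exists_step (τ (Nat.unpair n).1) S.1 S.2.1 S.2.2
    exact ⟨⟨S', h2, h3⟩, h1, h4⟩
  choose f hf1 hf2 using stepX
  have good_empty : Good (∅ : Set (F × K)) := by
    constructor <;> simp
  let s : ℕ → X := fun n => Nat.rec ⟨∅, Set.finite_empty, good_empty⟩ (fun n S => f n S) n
  have hs : ∀ n, s (n + 1) = f n (s n) := fun n => rfl
  have hmono : Monotone (fun n => (s n).1) := by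
    apply monotone_nat_of_le_succ
    intro n
    rw [hs]
    exact hf1 n (s n)
  let S : Set (F × K) := ⋃ n, (s n).1
  have hgood : Good S := by
    constructor
    · intro p hp q hq h
      obtain ⟨i, hi⟩ := Set.mem_iUnion.mp hp
      obtain ⟨j, hj⟩ := Set.mem_iUnion.mp hq
      exact (s (max i j)).2.2.fst p (hmono (le_max_left i j) hi) q
        (hmono (le_max_right i j) hj) h
    · intro p hp q hq h
      obtain ⟨i, hi⟩ := Set.mem_iUnion.mp hp
      obtain ⟨j, hj⟩ := Set.mem_iUnion.mp hq
      exact (s (max i j)).2.2.snd p (hmono (le_max_left i j) hi) q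
        (hmono (le_max_right i j) hj) h
    · intro p hp q hq r hr h1 h2 h
      obtain ⟨i, hi⟩ := Set.mem_iUnion.mp hp
      obtain ⟨j, hj⟩ := Set.mem_iUnion.mp hq
      obtain ⟨k, hk⟩ := Set.mem_iUnion.mp hr
      exact (s (max i (max j k))).2.2.tri p (hmono (le_max_left _ _) hi) q
        (hmono ((le_max_left _ _).trans (le_max_right _ _)) hj) r
        (hmono ((le_max_right _ _).trans (le_max_right _ _)) hk) h1 h2 h
  have hdone : ∀ (t : K ⊕ (F × K)) (N : ℕ), ∃ n, N ≤ n ∧ Done t (s (n + 1)).1 := by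
    intro t N
    obtain ⟨i, hi⟩ := hτ t
    refine ⟨Nat.pair i N, Nat.right_le_pair i N, ?_⟩
    rw [hs]
    have := hf2 (Nat.pair i N) (s (Nat.pair i N))
    rw [Nat.unpair_pair] at this
    simpa [hi] using this
  refine ⟨S, hgood.fst, ?_, hgood.snd, ?_, hgood.tri⟩
  · intro c
    obtain ⟨n, -, p, hp, hc⟩ := hdone (Sum.inl c) 0
    exact ⟨p, Set.mem_iUnion.mpr ⟨n + 1, hp⟩, hc⟩
  · rintro ⟨a, b⟩ hp m hm
    obtain ⟨N, hN⟩ := Set.mem_iUnion.mp hp
    obtain ⟨n, hn, hd⟩ := hdone (Sum.inr (a, m)) N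
    obtain ⟨q, hq, h1, h2⟩ := hd hm b (hmono (hn.trans (Nat.le_succ n)) hN)
    refine ⟨q, Set.mem_iUnion.mpr ⟨n + 1, hq⟩, ?_, h2⟩
    rintro rfl
    exact h1 rfl

end Pool.Agent.U657.TGQ
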