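import Pool.Agent.U657.TGQ.Defs

/-!
# Coset geometries of Kantor families of abelian groups, finite or infinite
-/

set_option autoImplicit false

namespace Pool.Agent.U657.TGQ

open scoped IsMulCommutative

variable {A : Type} [AddCommGroup A] {ι : Type}

/-- Kantor families of an abelian group, without any finiteness. -/
structure Kantor (B Bs : ι → AddSubgroup A) : Prop where
  le : ∀ i, B i ≤ Bs i
  compl : ∀ i j, i ≠ j → ∀ g, ∃ a ∈ Bs i, g - a ∈ B j
  disj : ∀ i j, i ≠ j → ∀ g, g ∈ Bs i → g ∈ B j → g = 0
  tri : ∀ i j k, i ≠ j → i ≠ k → j ≠ k → ∀ a ∈ B i, ∀ b ∈ B j, a + b ∈ B k → a + b = 0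
  cover : ∀ i g, g ∉ Bs i → ∃ j, j ≠ i ∧ ∃ a ∈ B i, g - a ∈ B j
  nontriv : ∀ i, ∃ a ∈ B i, a ≠ 0
  proper : ∀ i, ∃ a ∈ Bs i, a ∉ B i
  three : ∃ i j k : ι, i ≠ j ∧ i ≠ k ∧ j ≠ k

/-- Points of the coset geometry. -/
inductive Pt (Bs : ι → AddSubgroup A) : Type
  | aff (g : A) : Pt Bs
  | cos (i : ι) (c : A ⧸ Bs i) : Pt Bs
  | inf : Pt Bs

/-- Lines of the coset geometry. -/
inductive Ln (B : ι → AddSubgroup A) : Type
  | cos (i : ι) (c : A ⧸ B i) : Ln B
  | base (i : ι) : Ln B

/-- Incidence of the coset geometry. -/
inductive Inc (B Bs : ι → AddSubgroup A) : Pt Bs → Ln B → Prop
  | aff (g : A) (i : ι) : Inc B Bs (.aff g) (.cos i (QuotientAddGroup.mk g))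
  | cos (g : A) (i : ι) : Inc B Bs (.cos i (QuotientAddGroup.mk g)) (.cos i (QuotientAddGroup.mk g))
  | base (i : ι) (c : A ⧸ Bs i) : Inc B Bs (.cos i c) (.base i)
  | inf (i : ι) : Inc B Bs .inf (.base i)

variable {B Bs : ι → AddSubgroup A}

lemma mk_eq_iff {S : AddSubgroup A} (g h : A) :
    (QuotientAddGroup.mk g : A ⧸ S) = QuotientAddGroup.mk h ↔ h - g ∈ S := by
  rw [QuotientAddGroup.eq, neg_add_eq_sub]

lemma inc_aff_cos (g : A) (i : ι) (c : A ⧸ B i) :
    Inc B Bs (.aff g) (.cos i c) ↔ (QuotientAddGroup.mk g : A ⧸ B i) = c := by
  constructor
  · intro h; cases h; rfl
  · rintro rfl; exact .aff g i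

lemma inc_aff_base (g : A) (i : ι) : ¬ Inc B Bs (.aff g) (.base i) := by
  intro h; cases h

lemma inc_inf_cos (i : ι) (c : A ⧸ B i) : ¬ Inc B Bs .inf (.cos i c) := by
  intro h; cases h

lemma inc_inf_base (i : ι) : Inc B Bs .inf (.base i) := .inf i

lemma inc_cos_base (i j : ι) (c : A ⧸ Bs i) : Inc B Bs (.cos i c) (.base j) ↔ i = j := by
  constructor
  · intro h; cases h; rfl
  · rintro rfl; exact .base i c

lemma inc_cos_cos_ne {i j : ι} {c : A ⧸ Bs i} {d : A ⧸ B j} (h : Inc B Bs (.cos i c) (.cos j d)) :
    i = j := by
  cases h; rfl

lemma inc_cos_cos (hB : ∀ i, B i ≤ Bs i) (i : ι) (g h : A) :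
    Inc B Bs (.cos i (QuotientAddGroup.mk g)) (.cos i (QuotientAddGroup.mk h)) ↔
      h - g ∈ Bs i := by
  constructor
  · intro hh
    generalize hc : (QuotientAddGroup.mk g : A ⧸ Bs i) = c at hh
    generalize hd : (QuotientAddGroup.mk h : A ⧸ B i) = d at hh
    cases hh with
    | cos g' =>
      rw [mk_eq_iff] at hc hd
      have := (Bs i).sub_mem hc (hB i hd)
      simpa using this
  · intro hh
    have : (QuotientAddGroup.mk g : A ⧸ Bs i) = QuotientAddGroup.mk h := (mk_eq_iff g h).2 hh
    rw [this]
    exact .cos h i

/-- The coset geometry of a Kantor family is a generalized quadrangle. -/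
theorem isGQ (hK : Kantor B Bs) : IsGQ (Inc B Bs) := by
  have hle := hK.le
  constructor
  · -- two points are on at most one line
    intro p q l m hpq hpl hql hpm hqm
    rcases p with g | ⟨i, c⟩ | _
    · rcases q with h | ⟨j, d⟩ | _
      · cases hpl with
        | aff _ i =>
          cases hpm with
          | aff _ j =>
            rw [inc_aff_cos] at hql hqm
            by_cases hij : i = j
            · subst hij; rfl
            · exfalso
              rw [mk_eq_iff] at hql hqm
              have := hK.disj i j hij _ (hle i hql) hqm
              apply hpq
              rw [sub_eq_zero.mp this]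
      · cases hpl with
        | aff _ i =>
          cases hpm with
          | aff _ j =>
            have h1 := inc_cos_cos_ne hql
            have h2 := inc_cos_cos_ne hqm
            subst h1; subst h2; rfl
      · cases hpl with
        | aff _ i => exact absurd hql (inc_inf_cos _ _)
    · rcases q with h | ⟨j, d⟩ | _
      · cases hql with
        | aff _ i =>
          cases hqm with
          | aff _ j =>
            have h1 := inc_cos_cos_ne hpl
            have h2 := inc_cos_cos_ne hpm
            subst h1; subst h2; rfl
      · rcases l with ⟨k, e⟩ | k
        · exfalso
          have h1 := inc_cos_cos_ne hpl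
          have h2 := inc_cos_cos_ne hql
          subst h1; subst h2
          induction c using QuotientAddGroup.induction_on with | _ g =>
          induction d using QuotientAddGroup.induction_on with | _ h =>
          induction e using QuotientAddGroup.induction_on with | _ e =>
          rw [inc_cos_cos hle] at hpl hql
          apply hpq
          congr 1
          rw [mk_eq_iff]
          have := (Bs _).sub_mem hpl hql
          simpa using this
        · rw [inc_cos_base] at hpl hql
          subst hpl; subst hql
          rcases m with ⟨k, e⟩ | k
          · exfalso
            have h1 := inc_cos_cos_ne hpm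
            subst h1
            induction c using QuotientAddGroup.induction_on with | _ g =>
            induction d using QuotientAddGroup.induction_on with | _ h =>
            induction e using QuotientAddGroup.induction_on with | _ e =>
            rw [inc_cos_cos hle] at hpm hqm
            apply hpq
            congr 1
            rw [mk_eq_iff]
            have := (Bs _).sub_mem hpm hqm
            simpa using this
          · rw [inc_cos_base] at hpm
            rw [hpm]
      · rcases l with ⟨k, e⟩ | k
        · exact absurd hql (inc_inf_cos _ _)
        · rcases m with ⟨k', e⟩ | k'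
          · exact absurd hqm (inc_inf_cos _ _)
          · rw [inc_cos_base] at hpl hpm
            rw [← hpl, ← hpm]
    · rcases q with h | ⟨j, d⟩ | _
      · cases hql with
        | aff _ i => exact absurd hpl (inc_inf_cos _ _)
      · rcases l with ⟨k, e⟩ | k
        · exact absurd hpl (inc_inf_cos _ _)
        · rcases m with ⟨k', e⟩ | k'
          · exact absurd hpm (inc_inf_cos _ _)
          · rw [inc_cos_base] at hql hqm
            rw [← hql, ← hqm]
      · exact absurd rfl hpq
  · -- three points
    intro l
    rcases l with ⟨i, c⟩ | i
    · induction c using QuotientAddGroup.induction_on with | _ g =>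
      obtain ⟨a, ha, ha0⟩ := hK.nontriv i
      refine ⟨.aff g, .aff (g + a), .cos i (QuotientAddGroup.mk g), ?_, ?_, ?_, ?_, ?_, ?_⟩
      · intro h
        injection h with h
        exact ha0 (by simpa using h)
      · intro h; cases h
      · intro h; cases h
      · exact .aff g i
      · rw [inc_aff_cos, mk_eq_iff]
        simpa using ha
      · exact .cos g i
    · obtain ⟨i1, i2, i3, h12, h13, h23⟩ := hK.three
      obtain ⟨j, hj⟩ : ∃ j, i ≠ j := by
        by_cases h : i = i1
        · exact ⟨i2, by rw [h]; exact h12⟩
        · exact ⟨i1, h⟩
      obtain ⟨a, ha, ha0⟩ := hK.nontriv j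
      refine ⟨.inf, .cos i 0, .cos i (QuotientAddGroup.mk a), ?_, ?_, ?_, .inf i, .base i _,
        .base i _⟩
      · intro h; cases h
      · intro h; cases h
      · intro h
        injection h with h1 h2
        have h3 : (QuotientAddGroup.mk 0 : A ⧸ Bs i) = QuotientAddGroup.mk a := h2
        rw [mk_eq_iff, sub_zero] at h3
        exact ha0 (hK.disj i j hj a h3 ha)
  · -- three lines
    intro p
    obtain ⟨i1, i2, i3, h12, h13, h23⟩ := hK.three
    rcases p with g | ⟨i, c⟩ | _
    · refine ⟨.cos i1 (QuotientAddGroup.mk g), .cos i2 (QuotientAddGroup.mk g),
        .cos i3 (QuotientAddGroup.mk g), ?_, ?_, ?_, .aff g i1, .aff g i2, .aff g i3⟩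
      · intro h; injection h with h1; exact h12 h1
      · intro h; injection h with h1; exact h13 h1
      · intro h; injection h with h1; exact h23 h1
    · induction c using QuotientAddGroup.induction_on with | _ g =>
      obtain ⟨a, ha, ha0⟩ := hK.proper i
      refine ⟨.base i, .cos i (QuotientAddGroup.mk g), .cos i (QuotientAddGroup.mk (g + a)),
        ?_, ?_, ?_, .base i _, .cos g i, ?_⟩
      · intro h; cases h
      · intro h; cases h
      · intro h
        injection h with h1 h2
        rw [mk_eq_iff] at h2
        exact ha0 (by simpa using h2)
      · rw [inc_cos_cos hle]
        simpa using ha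
    · refine ⟨.base i1, .base i2, .base i3, ?_, ?_, ?_, .inf i1, .inf i2, .inf i3⟩
      · intro h; injection h with h1; exact h12 h1
      · intro h; injection h with h1; exact h13 h1
      · intro h; injection h with h1; exact h23 h1
  · -- projection
    intro p l hpl
    rcases p with g | ⟨i, c⟩ | _
    · rcases l with ⟨i, c⟩ | i
      · induction c using QuotientAddGroup.induction_on with | _ h =>
        rw [inc_aff_cos, mk_eq_iff] at hpl
        by_cases hs : h - g ∈ Bs i
        · refine ⟨.cos i (QuotientAddGroup.mk h), ⟨.cos h i, .cos i (QuotientAddGroup.mk g),
            .aff g i, ?_⟩, ?_⟩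
          · rw [inc_cos_cos hle]
            simpa using (Bs i).neg_mem hs
          · rintro q ⟨hq, m, hm1, hm2⟩
            rcases q with q | ⟨j, d⟩ | _
            · exfalso
              rw [inc_aff_cos, mk_eq_iff] at hq
              cases hm1 with
              | aff _ j =>
                rw [inc_aff_cos, mk_eq_iff] at hm2
                -- g - q ∈ B j, h - q ∈ B i, h - g ∈ Bs i
                by_cases hij : i = j
                · subst hij
                  apply hpl
                  have := (B i).sub_mem hq hm2
                  simpa using this
                · have h1 : g - q ∈ Bs i := by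
                    have := (Bs i).sub_mem (hle i hq) hs
                    simpa using this
                  have h2 := hK.disj i j hij _ h1 hm2
                  apply hpl
                  rw [sub_eq_zero.mp h2]
                  exact hq
            · have h1 := inc_cos_cos_ne hq
              subst h1
              induction d using QuotientAddGroup.induction_on with | _ d =>
              rw [inc_cos_cos hle] at hq
              congr 1
              rw [mk_eq_iff]
              exact hq
            · exact absurd hq (inc_inf_cos _ _)
        · obtain ⟨j, hj, a, ha, hb⟩ := hK.cover i (h - g) hs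
          -- h - g - a ∈ B j; the point h - a
          refine ⟨.aff (h - a), ⟨?_, .cos j (QuotientAddGroup.mk g), .aff g j, ?_⟩, ?_⟩
          · show Inc B Bs (.aff (h - a)) (.cos i (QuotientAddGroup.mk h))
            rw [inc_aff_cos, mk_eq_iff]
            simpa using ha
          · rw [inc_aff_cos, mk_eq_iff]
            have := (B j).neg_mem hb
            have e : g - (h - a) = -(h - g - a) := by abel
            rw [e]; exact this
          · rintro q ⟨hq, m, hm1, hm2⟩
            rcases q with q | ⟨k, d⟩ | _
            · rw [inc_aff_cos, mk_eq_iff] at hq
              cases hm1 with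
              | aff _ k =>
                rw [inc_aff_cos, mk_eq_iff] at hm2
                -- g - q ∈ B k, h - q ∈ B i
                have hki : k ≠ i := by
                  rintro rfl
                  apply hs
                  apply hle
                  have := (B k).sub_mem hq hm2
                  simpa using this
                have e1 : (h - q - a) + (q - g) = h - g - a := by abel
                have hqa : h - q - a ∈ B i := (B i).sub_mem hq ha
                have hqg : q - g ∈ B k := by
                  have := (B k).neg_mem hm2
                  simpa using this
                by_cases hjk : j = k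
                · subst hjk
                  have h1 : h - q - a ∈ B j := by
                    have := (B j).sub_mem hb hqg
                    rw [← e1] at this
                    simpa using this
                  have h2 := hK.disj i j hj.symm _ (hle i hqa) h1
                  congr 1
                  have : h - q = a := sub_eq_zero.mp h2
                  rw [← this]; abel
                · exfalso
                  have h0 := hK.tri i k j hki.symm hj.symm (Ne.symm hjk) _ hqa _ hqg
                    (by rw [e1]; exact hb)
                  have h3 : h - q - a ∈ B k := by
                    have : h - q - a = -(q - g) := eq_neg_of_add_eq_zero_left h0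
                    rw [this]; exact (B k).neg_mem hqg
                  have h4 := hK.disj i k hki.symm _ (hle i hqa) h3
                  rw [h4, zero_add] at h0
                  apply hpl
                  have : q = g := sub_eq_zero.mp h0
                  rw [← this]; exact hq
            · exfalso
              have h1 := inc_cos_cos_ne hq
              subst h1
              cases hm1 with
              | aff _ j' =>
                have h2 := inc_cos_cos_ne hm2
                subst h2
                induction d using QuotientAddGroup.induction_on with | _ d =>
                rw [inc_cos_cos hle] at hq hm2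
                apply hs
                have := (Bs k).sub_mem hq hm2
                simpa using this
            · exact absurd hq (inc_inf_cos _ _)
      · refine ⟨.cos i (QuotientAddGroup.mk g), ⟨.base i _, .cos i (QuotientAddGroup.mk g),
          .aff g i, .cos g i⟩, ?_⟩
        rintro q ⟨hq, m, hm1, hm2⟩
        rcases q with q | ⟨k, d⟩ | _
        · exact absurd hq (inc_aff_base _ _)
        · rw [inc_cos_base] at hq
          subst hq
          cases hm1 with
          | aff _ j' =>
            have h2 := inc_cos_cos_ne hm2
            subst h2
            induction d using QuotientAddGroup.induction_on with | _ d =>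
            rw [inc_cos_cos hle] at hm2
            congr 1
            rw [mk_eq_iff]
            exact hm2
        · exfalso
          cases hm1 with
          | aff _ j' => exact inc_inf_cos _ _ hm2
    · induction c using QuotientAddGroup.induction_on with | _ g =>
      rcases l with ⟨j, d⟩ | j
      · induction d using QuotientAddGroup.induction_on with | _ h =>
        by_cases hij : i = j
        · subst hij
          rw [inc_cos_cos hle] at hpl
          refine ⟨.cos i (QuotientAddGroup.mk h), ⟨.cos h i, .base i, .base i _, .base i _⟩, ?_⟩
          rintro q ⟨hq, m, hm1, hm2⟩
          rcases q with q | ⟨k, d⟩ | _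
          · exfalso
            cases hm2 with
            | aff _ k =>
              have h1 := inc_cos_cos_ne hm1
              subst h1
              rw [inc_cos_cos hle] at hm1
              rw [inc_aff_cos, mk_eq_iff] at hq
              apply hpl
              have := (Bs i).add_mem hm1 (hle i hq)
              simpa using this
          · have h1 := inc_cos_cos_ne hq
            subst h1
            induction d using QuotientAddGroup.induction_on with | _ d =>
            rw [inc_cos_cos hle] at hq
            congr 1
            rw [mk_eq_iff]
            exact hq
          · exact absurd hq (inc_inf_cos _ _)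
        · obtain ⟨a, ha, hb⟩ := hK.compl i j hij (h - g)
          -- h - g - a ∈ B j; point a + g
          refine ⟨.aff (g + a), ⟨?_, .cos i (QuotientAddGroup.mk (g + a)), ?_, .aff _ i⟩, ?_⟩
          · show Inc B Bs (.aff (g + a)) (.cos j (QuotientAddGroup.mk h))
            rw [inc_aff_cos, mk_eq_iff]
            have e : h - (g + a) = h - g - a := by abel
            rw [e]; exact hb
          · rw [inc_cos_cos hle]
            simpa using ha
          · rintro q ⟨hq, m, hm1, hm2⟩
            rcases q with q | ⟨k, d⟩ | _
            · rw [inc_aff_cos, mk_eq_iff] at hq
              cases hm2 with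
              | aff _ k =>
                have h1 := inc_cos_cos_ne hm1
                subst h1
                rw [inc_cos_cos hle] at hm1
                -- h - q ∈ B j, q - g ∈ Bs i
                have h2 : q - g - a ∈ Bs i := (Bs i).sub_mem hm1 ha
                have h3 : q - g - a ∈ B j := by
                  have := (B j).sub_mem hb hq
                  have e : q - g - a = (h - g - a) - (h - q) := by abel
                  rw [e]; exact this
                have h4 := hK.disj i j hij _ h2 h3
                congr 1
                have : q - g = a := sub_eq_zero.mp h4
                rw [← this]; abel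
            · exfalso
              have h1 := inc_cos_cos_ne hq
              subst h1
              rcases m with ⟨m, e⟩ | m
              · exact hij ((inc_cos_cos_ne hm1).trans (inc_cos_cos_ne hm2).symm)
              · rw [inc_cos_base] at hm1 hm2
                exact hij (hm1.trans hm2.symm)
            · exact absurd hq (inc_inf_cos _ _)
      · rw [inc_cos_base] at hpl
        refine ⟨.inf, ⟨.inf j, .base i, .base i _, .inf i⟩, ?_⟩
        rintro q ⟨hq, m, hm1, hm2⟩
        rcases q with q | ⟨k, d⟩ | _
        · exact absurd hq (inc_aff_base _ _)
        · exfalso
          rw [inc_cos_base] at hq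
          subst hq
          rcases m with ⟨m, e⟩ | m
          · exact hpl ((inc_cos_cos_ne hm1).trans (inc_cos_cos_ne hm2).symm)
          · rw [inc_cos_base] at hm1 hm2
            exact hpl (hm1.trans hm2.symm)
        · rfl
    · rcases l with ⟨j, d⟩ | j
      · induction d using QuotientAddGroup.induction_on with | _ h =>
        refine ⟨.cos j (QuotientAddGroup.mk h), ⟨.cos h j, .base j, .inf j, .base j _⟩, ?_⟩
        rintro q ⟨hq, m, hm1, hm2⟩
        rcases q with q | ⟨k, d⟩ | _
        · exfalso
          cases hm2 with
          | aff _ k => exact inc_inf_cos _ _ hm1
        · have h1 := inc_cos_cos_ne hq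
          subst h1
          induction d using QuotientAddGroup.induction_on with | _ d =>
          rw [inc_cos_cos hle] at hq
          congr 1
          rw [mk_eq_iff]
          exact hq
        · exact absurd hq (inc_inf_cos _ _)
      · exact absurd (inc_inf_base j) hpl

end Pool.Agent.U657.TGQ
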