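import Mathlib

/-!
# Generalized quadrangles, translation generalized quadrangles and their kernels

Point-line geometries are given by an incidence relation `I : P → L → Prop`.
-/

set_option autoImplicit false

namespace Pool.Agent.U657.TGQ

open scoped IsMulCommutative

variable {P L : Type}

/-- Two points are collinear if some line contains both of them. -/
def Collinear (I : P → L → Prop) (p q : P) : Prop := ∃ l, I p l ∧ I q l

/-- Generalized quadrangles, finite or infinite: two different points lie on at most one common
line, every line has at least three points, every point lies on at least three lines, and for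
every point `p` and every line `l` not through `p` exactly one point of `l` is collinear
with `p`. -/
structure IsGQ (I : P → L → Prop) : Prop where
  line_unique : ∀ p q l m, p ≠ q → I p l → I q l → I p m → I q m → l = m
  three_points : ∀ l, ∃ p q r, p ≠ q ∧ p ≠ r ∧ q ≠ r ∧ I p l ∧ I q l ∧ I r l
  three_lines : ∀ p, ∃ l m n, l ≠ m ∧ l ≠ n ∧ m ≠ n ∧ I p l ∧ I p m ∧ I p n
  projection : ∀ p l, ¬ I p l → ∃! q, I q l ∧ Collinear I p q

/-- The automorphism group of a point-line geometry: the pairs of a permutation of the points
and a permutation of the lines which preserve incidence (in both directions). -/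
def autGroup (I : P → L → Prop) : Subgroup (Equiv.Perm P × Equiv.Perm L) where
  carrier := {σ | ∀ p l, I (σ.1 p) (σ.2 l) ↔ I p l}
  mul_mem' := by
    intro σ τ hσ hτ p l
    exact (hσ _ _).trans (hτ p l)
  one_mem' := fun _ _ => Iff.rfl
  inv_mem' := by
    intro σ hσ p l
    have h := hσ (σ⁻¹.1 p) (σ⁻¹.2 l)
    simpa using h.symm

/-- Elations about the point `x`: automorphisms which are the identity, or which fix every line
through `x` and fix no point not collinear with `x`. -/
def IsElation (I : P → L → Prop) (x : P) (σ : Equiv.Perm P × Equiv.Perm L) : Prop :=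
  σ ∈ autGroup I ∧
    (σ = 1 ∨ ((∀ l, I x l → σ.2 l = l) ∧ ∀ p, ¬ Collinear I x p → σ.1 p ≠ p))

/-- `G` is the translation group of a translation generalized quadrangle with base point `x`:
the geometry is a generalized quadrangle, `G` is an abelian group of elations about `x`, and it
acts sharply transitively on the points which are not collinear with `x`. -/
structure IsTGQ (I : P → L → Prop) (x : P) (G : Subgroup (Equiv.Perm P × Equiv.Perm L)) :
    Prop where
  gq : IsGQ I
  comm : IsMulCommutative G
  elation : ∀ σ ∈ G, IsElation I x σ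
  sharply_transitive : ∀ p q, ¬ Collinear I x p → ¬ Collinear I x q →
    ∃! σ, σ ∈ G ∧ σ.1 p = q

/-- The kernel of a translation generalized quadrangle, computed with the point `y` (a point not
collinear with `x`).  For a line `l` through `x` let `m` be the line through `y` which meets `l`
and `z` the common point of `l` and `m`.  The kernel is the ring of all endomorphisms `α` of the
abelian group `G` which map the stabiliser in `G` of the line `m` into itself and the stabiliser
in `G` of the point `z` into itself, for all such `l`.  (The group `G` is written additively in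
order to have the ring of endomorphisms: addition is pointwise, multiplication is
composition.) -/
def kernel (I : P → L → Prop) (x y : P) (G : Subgroup (Equiv.Perm P × Equiv.Perm L))
    [IsMulCommutative G] : Subring (AddMonoid.End (Additive G)) where
  carrier := {α | ∀ (l m : L) (z : P), I x l → I y m → I z l → I z m →
    (∀ σ : G, σ.1.2 m = m → (α (Additive.ofMul σ)).toMul.1.2 m = m) ∧
    (∀ σ : G, σ.1.1 z = z → (α (Additive.ofMul σ)).toMul.1.1 z = z)}
  mul_mem' := by
    intro α β hα hβ l m z h1 h2 h3 h4
    refine ⟨fun σ hσ => ?_, fun σ hσ => ?_⟩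
    · exact (hα l m z h1 h2 h3 h4).1 _ ((hβ l m z h1 h2 h3 h4).1 σ hσ)
    · exact (hα l m z h1 h2 h3 h4).2 _ ((hβ l m z h1 h2 h3 h4).2 σ hσ)
  one_mem' := fun _ _ _ _ _ _ _ => ⟨fun _ h => h, fun _ h => h⟩
  add_mem' := by
    intro α β hα hβ l m z h1 h2 h3 h4
    refine ⟨fun σ hσ => ?_, fun σ hσ => ?_⟩
    · have ha := (hα l m z h1 h2 h3 h4).1 σ hσ
      have hb := (hβ l m z h1 h2 h3 h4).1 σ hσ
      change (α (Additive.ofMul σ)).toMul.1.2 ((β (Additive.ofMul σ)).toMul.1.2 m) = m
      rw [hb, ha]
    · have ha := (hα l m z h1 h2 h3 h4).2 σ hσ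
      have hb := (hβ l m z h1 h2 h3 h4).2 σ hσ
      change (α (Additive.ofMul σ)).toMul.1.1 ((β (Additive.ofMul σ)).toMul.1.1 z) = z
      rw [hb, ha]
  zero_mem' := fun _ _ _ _ _ _ _ => ⟨fun _ _ => rfl, fun _ _ => rfl⟩
  neg_mem' := by
    intro α hα l m z h1 h2 h3 h4
    refine ⟨fun σ hσ => ?_, fun σ hσ => ?_⟩
    · have ha := (hα l m z h1 h2 h3 h4).1 σ hσ
      change ((α (Additive.ofMul σ)).toMul.1.2)⁻¹ m = m
      rw [Equiv.Perm.inv_eq_iff_eq, ha]
    · have ha := (hα l m z h1 h2 h3 h4).2 σ hσ
      change ((α (Additive.ofMul σ)).toMul.1.1)⁻¹ z = z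
      rw [Equiv.Perm.inv_eq_iff_eq, ha]

/-- A ring is a division ring if it is not the zero ring and all its elements except `0` have
a two-sided inverse. -/
def IsDivision (R : Type) [Ring R] : Prop :=
  Nontrivial R ∧ ∀ a : R, a ≠ 0 → ∃ b : R, a * b = 1 ∧ b * a = 1

end Pool.Agent.U657.TGQ
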