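import Pool.Agent.U657.TGQ.Coset

/-!
# The translation generalized quadrangle of a Kantor family, and its kernel
-/

set_option autoImplicit false

namespace Pool.Agent.U657.TGQ

open scoped IsMulCommutative

variable {A : Type} [AddCommGroup A] {ι : Type}

/-- Translation of the points. -/
def trPt (Bs : ι → AddSubgroup A) (t : A) : Pt Bs → Pt Bs
  | .aff g => .aff (t + g)
  | .cos i c => .cos i (QuotientAddGroup.mk t + c)
  | .inf => .inf

/-- Translation of the lines. -/
def trLn (B : ι → AddSubgroup A) (t : A) : Ln B → Ln B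
  | .cos i c => .cos i (QuotientAddGroup.mk t + c)
  | .base i => .base i

lemma trPt_add (Bs : ι → AddSubgroup A) (s t : A) (p : Pt Bs) :
    trPt Bs (s + t) p = trPt Bs s (trPt Bs t p) := by
  rcases p with g | ⟨i, c⟩ | _
  · simp only [trPt, add_assoc]
  · simp only [trPt, QuotientAddGroup.mk_add, add_assoc]
  · rfl

lemma trPt_zero (Bs : ι → AddSubgroup A) (p : Pt Bs) : trPt Bs 0 p = p := by
  rcases p with g | ⟨i, c⟩ | _
  · simp only [trPt, zero_add]
  · simp only [trPt, QuotientAddGroup.mk_zero, zero_add]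
  · rfl

lemma trLn_add (B : ι → AddSubgroup A) (s t : A) (p : Ln B) :
    trLn B (s + t) p = trLn B s (trLn B t p) := by
  rcases p with ⟨i, c⟩ | i
  · simp only [trLn, QuotientAddGroup.mk_add, add_assoc]
  · rfl

lemma trLn_zero (B : ι → AddSubgroup A) (p : Ln B) : trLn B 0 p = p := by
  rcases p with ⟨i, c⟩ | i
  · simp only [trLn, QuotientAddGroup.mk_zero, zero_add]
  · rfl

/-- The group homomorphism from the abelian group to the pairs of permutations. -/
def tr (B Bs : ι → AddSubgroup A) :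
    Multiplicative A →* Equiv.Perm (Pt Bs) × Equiv.Perm (Ln B) where
  toFun t :=
    (⟨trPt Bs t.toAdd, trPt Bs (-t.toAdd),
        fun p => by rw [← trPt_add, neg_add_cancel, trPt_zero],
        fun p => by rw [← trPt_add, add_neg_cancel, trPt_zero]⟩,
      ⟨trLn B t.toAdd, trLn B (-t.toAdd),
        fun p => by rw [← trLn_add, neg_add_cancel, trLn_zero],
        fun p => by rw [← trLn_add, add_neg_cancel, trLn_zero]⟩)
  map_one' := by
    refine Prod.ext ?_ ?_
    · ext p; exact trPt_zero Bs p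
    · ext p; exact trLn_zero B p
  map_mul' := by
    intro s t
    refine Prod.ext ?_ ?_
    · ext p; exact trPt_add Bs _ _ p
    · ext p; exact trLn_add B _ _ p

variable (B Bs : ι → AddSubgroup A)

lemma tr_fst (t : Multiplicative A) (p : Pt Bs) : (tr B Bs t).1 p = trPt Bs t.toAdd p := rfl
lemma tr_snd (t : Multiplicative A) (p : Ln B) : (tr B Bs t).2 p = trLn B t.toAdd p := rfl

lemma tr_injective : Function.Injective (tr B Bs) := by
  intro s t h
  have h1 : (tr B Bs s).1 (.aff 0) = (tr B Bs t).1 (.aff 0) := by rw [h]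
  rw [tr_fst, tr_fst] at h1
  simp only [trPt, add_zero] at h1
  injection h1

/-- The translation group. -/
def grp : Subgroup (Equiv.Perm (Pt Bs) × Equiv.Perm (Ln B)) := (tr B Bs).range

instance : IsMulCommutative (grp B Bs) := by
  refine ⟨⟨?_⟩⟩
  rintro ⟨_, s, rfl⟩ ⟨_, t, rfl⟩
  apply Subtype.ext
  change tr B Bs s * tr B Bs t = tr B Bs t * tr B Bs s
  rw [← map_mul, ← map_mul, mul_comm]

lemma tr_inc (t : A) (p : Pt Bs) (l : Ln B) (h : Inc B Bs p l) :
    Inc B Bs (trPt Bs t p) (trLn B t l) := by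
  cases h with
  | aff g i => exact .aff (t + g) i
  | cos g i => exact .cos (t + g) i
  | base i c => exact .base i _
  | inf i => exact .inf i

lemma tr_mem_aut (t : Multiplicative A) :
    tr B Bs t ∈ autGroup (Inc B Bs) := by
  intro p l
  rw [tr_fst, tr_snd]
  constructor
  · intro h
    have := tr_inc B Bs (-t.toAdd) _ _ h
    rwa [← trPt_add, ← trLn_add, neg_add_cancel, trPt_zero, trLn_zero] at this
  · intro h
    exact tr_inc B Bs _ _ _ h

lemma not_collinear_inf_iff (hne : Nonempty ι) (p : Pt Bs) :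
    ¬ Collinear (Inc B Bs) .inf p ↔ ∃ g, p = .aff g := by
  constructor
  · intro h
    rcases p with g | ⟨i, c⟩ | _
    · exact ⟨g, rfl⟩
    · exact absurd ⟨.base i, .inf i, .base i c⟩ h
    · obtain ⟨i⟩ := hne
      exact absurd ⟨.base i, .inf i, .inf i⟩ h
  · rintro ⟨g, rfl⟩ ⟨l, h1, h2⟩
    rcases l with ⟨i, c⟩ | i
    · exact inc_inf_cos _ _ h1
    · exact inc_aff_base _ _ h2

/-- The coset geometry of a Kantor family is a translation generalized quadrangle. -/
theorem isTGQ {B Bs : ι → AddSubgroup A} (hK : Kantor B Bs) :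
    IsTGQ (Inc B Bs) .inf (grp B Bs) := by
  have hne : Nonempty ι := by
    obtain ⟨i, _⟩ := hK.three
    exact ⟨i⟩
  refine ⟨isGQ hK, inferInstance, ?_, ?_⟩
  · rintro _ ⟨t, rfl⟩
    refine ⟨tr_mem_aut B Bs t, ?_⟩
    by_cases ht : t = 1
    · left; rw [ht, map_one]
    · right
      constructor
      · intro l hl
        cases hl with
        | inf i => rfl
      · intro p hp h
        rw [not_collinear_inf_iff B Bs hne] at hp
        obtain ⟨g, rfl⟩ := hp
        rw [tr_fst] at h
        simp only [trPt] at h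
        injection h with h
        apply ht
        have : t.toAdd = 0 := by simpa using h
        exact this
  · intro p q hp hq
    rw [not_collinear_inf_iff B Bs hne] at hp hq
    obtain ⟨g, rfl⟩ := hp
    obtain ⟨h, rfl⟩ := hq
    refine ⟨tr B Bs (Multiplicative.ofAdd (h - g)), ⟨⟨_, rfl⟩, ?_⟩, ?_⟩
    · rw [tr_fst]
      simp [trPt]
    · rintro _ ⟨⟨t, rfl⟩, ht⟩
      rw [tr_fst] at ht
      simp only [trPt] at ht
      injection ht with ht
      congr 1
      apply Multiplicative.toAdd.injective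
      rw [toAdd_ofAdd, ← ht]
      abel

/-- The additive isomorphism from the group onto its group of translations. -/
noncomputable def grpEquiv : A ≃+ Additive (grp B Bs) :=
  (AddEquiv.additiveMultiplicative A).symm.trans
    (MulEquiv.toAdditive (MonoidHom.ofInjective (tr_injective B Bs)))

lemma grpEquiv_apply (t : A) :
    (grpEquiv B Bs t).toMul.1 = tr B Bs (Multiplicative.ofAdd t) := rfl

/-- Conjugation of endomorphisms by an isomorphism. -/
def conjEnd {C : Type} [AddCommGroup C] (e : A ≃+ C) : AddMonoid.End A →+* AddMonoid.End C where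
  toFun f := (e.toAddMonoidHom.comp f).comp e.symm.toAddMonoidHom
  map_one' := by
    ext x
    change e (e.symm x) = x
    simp
  map_mul' := by
    intro f g
    ext x
    change e (f (g (e.symm x))) = e (f (e.symm (e (g (e.symm x)))))
    simp
  map_zero' := by
    ext x
    change e 0 = 0
    simp
  map_add' := by
    intro f g
    ext x
    change e (f (e.symm x) + g (e.symm x)) = e (f (e.symm x)) + e (g (e.symm x))
    simp

lemma conjEnd_apply {C : Type} [AddCommGroup C] (e : A ≃+ C) (f : AddMonoid.End A) (x : A) :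
    conjEnd e f (e x) = e (f x) := by
  change e (f (e.symm (e x))) = _
  simp

lemma mem_of_fix_ln {i : ι} {t : A} {c : A ⧸ B i} :
    trLn B t (.cos i c) = .cos i c ↔ t ∈ B i := by
  simp only [trLn, Ln.cos.injEq, heq_eq_eq, true_and, add_eq_right]
  exact QuotientAddGroup.eq_zero_iff t

lemma mem_of_fix_pt {i : ι} {t : A} {c : A ⧸ Bs i} :
    trPt Bs t (.cos i c) = .cos i c ↔ t ∈ Bs i := by
  simp only [trPt, Pt.cos.injEq, heq_eq_eq, true_and, add_eq_right]
  exact QuotientAddGroup.eq_zero_iff t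

/-- An endomorphism of the group preserving all the members of the family gives an element of
the kernel. -/
lemma conj_mem_kernel (f : AddMonoid.End A)
    (h1 : ∀ i, ∀ t ∈ B i, f t ∈ B i) (h2 : ∀ i, ∀ t ∈ Bs i, f t ∈ Bs i)
    (y : Pt Bs) (hy : ∃ g, y = .aff g) :
    conjEnd (grpEquiv B Bs) f ∈ kernel (Inc B Bs) .inf y (grp B Bs) := by
  obtain ⟨g, rfl⟩ := hy
  intro l m z hl hm hzl hzm
  obtain ⟨i, rfl⟩ : ∃ i, m = .cos i (QuotientAddGroup.mk g) := by
    cases hm with
    | aff _ i => exact ⟨i, rfl⟩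
  obtain ⟨d, rfl⟩ : ∃ d, z = .cos i d := by
    rcases z with h | ⟨j, d⟩ | _
    · exfalso
      cases hl with
      | inf i => exact inc_aff_base _ _ hzl
    · have := inc_cos_cos_ne hzm
      subst this
      exact ⟨d, rfl⟩
    · exact absurd hzm (inc_inf_cos _ _)
  constructor
  · intro σ hσ
    obtain ⟨t, ht⟩ := (grpEquiv B Bs).surjective (Additive.ofMul σ)
    have hσt : σ = (grpEquiv B Bs t).toMul := by rw [ht]; rfl
    rw [← ht, conjEnd_apply, grpEquiv_apply, tr_snd, toAdd_ofAdd, mem_of_fix_ln]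
    apply h1
    rw [hσt, grpEquiv_apply, tr_snd, toAdd_ofAdd, mem_of_fix_ln] at hσ
    exact hσ
  · intro σ hσ
    obtain ⟨t, ht⟩ := (grpEquiv B Bs).surjective (Additive.ofMul σ)
    have hσt : σ = (grpEquiv B Bs t).toMul := by rw [ht]; rfl
    rw [← ht, conjEnd_apply, grpEquiv_apply, tr_fst, toAdd_ofAdd, mem_of_fix_pt]
    apply h2
    rw [hσt, grpEquiv_apply, tr_fst, toAdd_ofAdd, mem_of_fix_pt] at hσ
    exact hσ

lemma conjEnd_injective {C : Type} [AddCommGroup C] (e : A ≃+ C) :
    Function.Injective (conjEnd e) := by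
  intro f g h
  ext x
  apply e.injective
  rw [← conjEnd_apply e f x, ← conjEnd_apply e g x, h]

/-- A nonzero endomorphism which preserves all the members of a Kantor family and is not
surjective gives a nonzero element of the kernel without inverse. -/
theorem exists_nonlinear {B Bs : ι → AddSubgroup A} (hK : Kantor B Bs) (f : AddMonoid.End A)
    (h1 : ∀ i, ∀ t ∈ B i, f t ∈ B i) (h2 : ∀ i, ∀ t ∈ Bs i, f t ∈ Bs i)
    (hf0 : f ≠ 0) (hfs : ¬ Function.Surjective f) :
    ∃ (P L : Type) (I : P → L → Prop) (x : P)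
    (G : Subgroup (Equiv.Perm P × Equiv.Perm L)) (_ : IsMulCommutative G),
    IsTGQ I x G ∧ (∃ y, ¬ Collinear I x y) ∧
    ∀ y, ¬ Collinear I x y →
      ∃ α : kernel I x y G, α ≠ 0 ∧ ¬ ∃ β : kernel I x y G, α * β = 1 ∧ β * α = 1 := by
  have hne : Nonempty ι := by
    obtain ⟨i, _⟩ := hK.three
    exact ⟨i⟩
  refine ⟨Pt Bs, Ln B, Inc B Bs, .inf, grp B Bs, inferInstance, isTGQ hK, ⟨.aff 0, ?_⟩, ?_⟩
  · rw [not_collinear_inf_iff B Bs hne]
    exact ⟨0, rfl⟩
  · intro y hy
    rw [not_collinear_inf_iff B Bs hne] at hy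
    have hmem : conjEnd (grpEquiv B Bs) f ∈ kernel (Inc B Bs) .inf y (grp B Bs) :=
      conj_mem_kernel B Bs f h1 h2 y hy
    refine ⟨⟨_, hmem⟩, ?_, ?_⟩
    · intro h
      have h1 : conjEnd (grpEquiv B Bs) f = 0 := congrArg Subtype.val h
      apply hf0
      apply conjEnd_injective (grpEquiv B Bs)
      rw [h1, map_zero]
    · rintro ⟨β, hβ, -⟩
      apply hfs
      intro a
      have h1 : conjEnd (grpEquiv B Bs) f * β.1 = 1 := congrArg Subtype.val hβ
      have h3 : conjEnd (grpEquiv B Bs) f (β.1 (grpEquiv B Bs a)) = grpEquiv B Bs a :=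
        DFunLike.congr_fun h1 (grpEquiv B Bs a)
      obtain ⟨t, ht⟩ := (grpEquiv B Bs).surjective (β.1 (grpEquiv B Bs a))
      rw [← ht, conjEnd_apply] at h3
      exact ⟨t, (grpEquiv B Bs).injective h3⟩

end Pool.Agent.U657.TGQ
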