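import Pool.Agent.U657.TGQ.Arc
import Pool.Agent.U657.TGQ.Trans

/-!
# A Kantor family of `O × O × K` from an oval-like set of points in `F × K`

`O` is a domain containing the infinite field `F`, and `K` a field containing `O`.
-/

set_option autoImplicit false

namespace Pool.Agent.U657.TGQ

open scoped IsMulCommutative

variable {F O K : Type} [Field F] [CommRing O] [Field K] [Algebra F O] [Algebra O K]

/-- The small members of the family, as submodules. -/
def fam (S : Set (F × K)) : Option S → Submodule O (O × O × K)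
  | none =>
    { carrier := {g | g.1 = 0 ∧ g.2.2 = 0}
      add_mem' := by
        rintro a b ⟨h1, h2⟩ ⟨h3, h4⟩
        exact ⟨by rw [Prod.fst_add, h1, h3, add_zero], by
          rw [Prod.snd_add, Prod.snd_add, h2, h4, add_zero]⟩
      zero_mem' := ⟨rfl, rfl⟩
      smul_mem' := by
        rintro c a ⟨h1, h2⟩
        exact ⟨by rw [Prod.smul_fst, h1, smul_zero], by
          rw [Prod.smul_snd, Prod.smul_snd, h2, smul_zero]⟩ }
  | some p =>
    { carrier := {g | g.2.1 = algebraMap F O p.1.1 * g.1 ∧ g.2.2 = p.1.2 * algebraMap O K g.1}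
      add_mem' := by
        rintro a b ⟨h1, h2⟩ ⟨h3, h4⟩
        refine ⟨?_, ?_⟩
        · simp only [Prod.snd_add, Prod.fst_add, h1, h3]; ring
        · simp only [Prod.snd_add, Prod.fst_add, h2, h4, map_add]; ring
      zero_mem' := by
        refine ⟨?_, ?_⟩ <;> simp
      smul_mem' := by
        rintro c a ⟨h1, h2⟩
        refine ⟨?_, ?_⟩
        · simp only [Prod.smul_snd, Prod.smul_fst, h1, smul_eq_mul]; ring
        · rw [Prod.smul_snd, Prod.smul_snd, Prod.smul_fst, h2, smul_eq_mul, map_mul,
            Algebra.smul_def]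
          ring }

/-- The large members of the family, as submodules. -/
def famS (S : Set (F × K)) : Option S → Submodule O (O × O × K)
  | none =>
    { carrier := {g | g.1 = 0}
      add_mem' := by
        rintro a b h1 h3
        change (a + b).1 = 0
        rw [Prod.fst_add, show a.1 = 0 from h1, show b.1 = 0 from h3, add_zero]
      zero_mem' := rfl
      smul_mem' := by
        rintro c a h1
        change (c • a).1 = 0
        rw [Prod.smul_fst, show a.1 = 0 from h1, smul_zero] }
  | some p =>
    { carrier := {g | g.2.1 = algebraMap F O p.1.1 * g.1}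
      add_mem' := by
        rintro a b h1 h3
        change (a + b).2.1 = algebraMap F O p.1.1 * (a + b).1
        have h1' : a.2.1 = algebraMap F O p.1.1 * a.1 := h1
        have h3' : b.2.1 = algebraMap F O p.1.1 * b.1 := h3
        simp only [Prod.snd_add, Prod.fst_add, h1', h3']; ring
      zero_mem' := by
        change (0 : O) = algebraMap F O p.1.1 * 0
        simp
      smul_mem' := by
        rintro c a h1
        change (c • a).2.1 = algebraMap F O p.1.1 * (c • a).1
        have h1' : a.2.1 = algebraMap F O p.1.1 * a.1 := h1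
        simp only [Prod.smul_snd, Prod.smul_fst, h1', smul_eq_mul]; ring }

/-- The small members, as additive subgroups. -/
def fB (S : Set (F × K)) (i : Option S) : AddSubgroup (O × O × K) := (fam S i).toAddSubgroup

/-- The large members, as additive subgroups. -/
def fBs (S : Set (F × K)) (i : Option S) : AddSubgroup (O × O × K) := (famS S i).toAddSubgroup

lemma mem_fB_none (S : Set (F × K)) (x y : O) (z : K) :
    (x, y, z) ∈ fB S none ↔ x = 0 ∧ z = 0 := Iff.rfl

lemma mem_fB_some (S : Set (F × K)) (p : S) (x y : O) (z : K) :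
    (x, y, z) ∈ fB S (some p) ↔ y = algebraMap F O p.1.1 * x ∧ z = p.1.2 * algebraMap O K x :=
  Iff.rfl

lemma mem_fBs_none (S : Set (F × K)) (x y : O) (z : K) :
    (x, y, z) ∈ fBs S none ↔ x = 0 := Iff.rfl

lemma mem_fBs_some (S : Set (F × K)) (p : S) (x y : O) (z : K) :
    (x, y, z) ∈ fBs S (some p) ↔ y = algebraMap F O p.1.1 * x := Iff.rfl

lemma exists_fam [Algebra F K] [IsScalarTower F O K] [IsDomain O] [Infinite F] [Countable K]
    (hOK : Function.Injective (algebraMap O K)) :
    ∃ S : Set (F × K), Kantor (fB (O := O) S) (fBs (O := O) S) := by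
  obtain ⟨S, hfst, hex, hsnd, hline, htri⟩ := exists_oval F K
  refine ⟨S, ?_⟩
  have hmap : ∀ a : F, algebraMap O K (algebraMap F O a) = algebraMap F K a := fun a =>
    (IsScalarTower.algebraMap_apply F O K a).symm
  have hFO : Function.Injective (algebraMap F O) := (algebraMap F O).injective
  have hFK : Function.Injective (algebraMap F K) := (algebraMap F K).injective
  have hne1 : ∀ p q : S, p ≠ q → p.1.1 ≠ q.1.1 := by
    intro p q hpq h
    exact hpq (Subtype.ext (hfst p.1 p.2 q.1 q.2 h))
  have hne2 : ∀ p q : S, p ≠ q → p.1.2 ≠ q.1.2 := by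
    intro p q hpq h
    exact hpq (Subtype.ext (hsnd p.1 p.2 q.1 q.2 h))
  have hOz : ∀ x : O, algebraMap O K x = 0 → x = 0 := by
    intro x hx
    exact hOK (by rw [hx, map_zero])
  constructor
  · -- le
    rintro (_ | p) ⟨x, y, z⟩ h
    · exact h.1
    · exact h.1
  · -- compl
    rintro (_ | p) (_ | q) hpq ⟨x, y, z⟩
    · exact absurd rfl hpq
    · refine ⟨(0, y - algebraMap F O q.1.1 * x, z - q.1.2 * algebraMap O K x), ?_, ?_⟩
      · rw [mem_fBs_none]
      · rw [Prod.mk_sub_mk, Prod.mk_sub_mk, mem_fB_some]
        refine ⟨by ring, ?_⟩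
        rw [sub_zero]; ring
    · refine ⟨(x, algebraMap F O p.1.1 * x, z), ?_, ?_⟩
      · rw [mem_fBs_some]
      · rw [Prod.mk_sub_mk, Prod.mk_sub_mk, mem_fB_none]
        exact ⟨by ring, by ring⟩
    · have hne : p ≠ q := fun h => hpq (by rw [h])
      have hd : q.1.1 - p.1.1 ≠ 0 := sub_ne_zero.mpr (hne1 p q hne).symm
      have hinv : (algebraMap F O q.1.1 - algebraMap F O p.1.1) *
          algebraMap F O (q.1.1 - p.1.1)⁻¹ = 1 := by
        rw [← map_sub, ← map_mul, mul_inv_cancel₀ hd, map_one]
      set v : O := algebraMap F O (q.1.1 - p.1.1)⁻¹ * (y - algebraMap F O p.1.1 * x) with hv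
      refine ⟨(x - v, algebraMap F O p.1.1 * (x - v), z - q.1.2 * algebraMap O K v), ?_, ?_⟩
      · rw [mem_fBs_some]
      · rw [Prod.mk_sub_mk, Prod.mk_sub_mk, mem_fB_some]
        have e : x - (x - v) = v := by ring
        rw [e]
        refine ⟨?_, by ring⟩
        have h2 : (algebraMap F O q.1.1 - algebraMap F O p.1.1) * v =
            y - algebraMap F O p.1.1 * x := by
          rw [hv, ← mul_assoc, hinv, one_mul]
        linear_combination -h2
  · -- disj
    rintro (_ | p) (_ | q) hpq ⟨x, y, z⟩ h1 h2
    · exact absurd rfl hpq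
    · rw [mem_fBs_none] at h1
      rw [mem_fB_some] at h2
      obtain ⟨h2, h3⟩ := h2
      subst h1
      rw [mul_zero] at h2
      rw [map_zero, mul_zero] at h3
      rw [h2, h3]; rfl
    · rw [mem_fBs_some] at h1
      rw [mem_fB_none] at h2
      obtain ⟨h2, h3⟩ := h2
      rw [h2, mul_zero] at h1
      rw [h1, h2, h3]; rfl
    · rw [mem_fBs_some] at h1
      rw [mem_fB_some] at h2
      obtain ⟨h2, h3⟩ := h2
      have hne : p ≠ q := fun h => hpq (by rw [h])
      have hd : algebraMap F O p.1.1 - algebraMap F O q.1.1 ≠ 0 := by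
        intro h
        exact hne1 p q hne (hFO (sub_eq_zero.mp h))
      have hx : x = 0 := by
        have : (algebraMap F O p.1.1 - algebraMap F O q.1.1) * x = 0 := by
          linear_combination h2 - h1
        exact (mul_eq_zero.mp this).resolve_left hd
      rw [hx, mul_zero] at h2
      rw [hx, map_zero, mul_zero] at h3
      rw [hx, h2, h3]; rfl
  · -- tri
    have main : ∀ p q r : S, r ≠ p → r ≠ q → p ≠ q → ∀ u v : K,
        (algebraMap F K p.1.1 - algebraMap F K r.1.1) * u +
          (algebraMap F K q.1.1 - algebraMap F K r.1.1) * v = 0 →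
        (p.1.2 - r.1.2) * u + (q.1.2 - r.1.2) * v = 0 → u = 0 ∧ v = 0 := by
      intro p q r hrp hrq hpq u v h1 h2
      have hdet : det3 r.1 p.1 q.1 ≠ 0 := by
        intro h
        exact hpq (Subtype.ext (htri r.1 r.2 p.1 p.2 q.1 q.2
          (fun h => hrp (Subtype.ext h)) (fun h => hrq (Subtype.ext h)) h))
      unfold det3 at hdet
      constructor
      · apply (mul_eq_zero.mp _).resolve_left hdet
        linear_combination (algebraMap F K q.1.1 - algebraMap F K r.1.1) * h2
          - (q.1.2 - r.1.2) * h1
      · apply (mul_eq_zero.mp _).resolve_left hdet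
        linear_combination (p.1.2 - r.1.2) * h1
          - (algebraMap F K p.1.1 - algebraMap F K r.1.1) * h2
    rintro (_ | p) (_ | q) (_ | r) hij hik hjk ⟨x, y, z⟩ ha ⟨x', y', z'⟩ hb hc
    · exact absurd rfl hij
    · exact absurd rfl hij
    · exact absurd rfl hik
    · -- none, q, r
      rw [mem_fB_none] at ha
      rw [mem_fB_some] at hb
      rw [Prod.mk_add_mk, Prod.mk_add_mk, mem_fB_some] at hc
      obtain ⟨hx, hz⟩ := ha
      obtain ⟨hb1, hb2⟩ := hb
      obtain ⟨hc1, hc2⟩ := hc
      subst hx; subst hz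
      rw [zero_add] at hc1 hc2
      rw [zero_add] at hc2
      have hd : q.1.2 - r.1.2 ≠ 0 := sub_ne_zero.mpr (hne2 q r (fun h => hjk (by rw [h])))
      have hx' : algebraMap O K x' = 0 := by
        apply (mul_eq_zero.mp _).resolve_left hd
        linear_combination hc2 - hb2
      have hx'' := hOz _ hx'
      rw [hx'', mul_zero] at hb1 hc1
      rw [hx', mul_zero] at hb2
      rw [Prod.mk_add_mk, Prod.mk_add_mk, hx'', hb2, hc1]
      simp
    · exact absurd rfl hjk
    · -- p, none, r
      rw [mem_fB_some] at ha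
      rw [mem_fB_none] at hb
      rw [Prod.mk_add_mk, Prod.mk_add_mk, mem_fB_some] at hc
      obtain ⟨hx, hz⟩ := hb
      obtain ⟨ha1, ha2⟩ := ha
      obtain ⟨hc1, hc2⟩ := hc
      subst hx; subst hz
      rw [add_zero] at hc1 hc2
      rw [add_zero] at hc2
      have hd : p.1.2 - r.1.2 ≠ 0 := sub_ne_zero.mpr (hne2 p r (fun h => hik (by rw [h])))
      have hx' : algebraMap O K x = 0 := by
        apply (mul_eq_zero.mp _).resolve_left hd
        linear_combination hc2 - ha2
      have hx'' := hOz _ hx'
      rw [hx'', mul_zero] at ha1 hc1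
      rw [hx', mul_zero] at ha2
      rw [Prod.mk_add_mk, Prod.mk_add_mk, hx'', ha2, hc1]
      simp
    · -- p, q, none
      rw [mem_fB_some] at ha
      rw [mem_fB_some] at hb
      rw [Prod.mk_add_mk, Prod.mk_add_mk, mem_fB_none] at hc
      obtain ⟨ha1, ha2⟩ := ha
      obtain ⟨hb1, hb2⟩ := hb
      obtain ⟨hc1, hc2⟩ := hc
      have hd : p.1.2 - q.1.2 ≠ 0 := sub_ne_zero.mpr (hne2 p q (fun h => hij (by rw [h])))
      have hx1 : x' = -x := by linear_combination hc1
      have hx' : algebraMap O K x = 0 := by
        apply (mul_eq_zero.mp _).resolve_left hd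
        rw [hx1, map_neg] at hb2
        linear_combination hc2 - ha2 - hb2
      have hx'' := hOz _ hx'
      rw [hx'', neg_zero] at hx1
      rw [hx'', mul_zero] at ha1
      rw [hx', mul_zero] at ha2
      rw [hx1, mul_zero] at hb1
      rw [hx1, map_zero, mul_zero] at hb2
      rw [hx'', hx1, ha1, hb1, ha2, hb2]
      simp
    · rw [mem_fB_some] at ha
      rw [mem_fB_some] at hb
      rw [Prod.mk_add_mk, Prod.mk_add_mk, mem_fB_some] at hc
      obtain ⟨ha1, ha2⟩ := ha
      obtain ⟨hb1, hb2⟩ := hb
      obtain ⟨hc1, hc2⟩ := hc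
      have hpq : p ≠ q := fun h => hij (by rw [h])
      have hpr : r ≠ p := fun h => hik (by rw [h])
      have hqr : r ≠ q := fun h => hjk (by rw [h])
      have h1 : (algebraMap F K p.1.1 - algebraMap F K r.1.1) * algebraMap O K x +
          (algebraMap F K q.1.1 - algebraMap F K r.1.1) * algebraMap O K x' = 0 := by
        have h := congrArg (algebraMap O K) hc1
        rw [ha1, hb1] at h
        simp only [map_add, map_mul, hmap] at h
        linear_combination h
      have h2 : (p.1.2 - r.1.2) * algebraMap O K x + (q.1.2 - r.1.2) * algebraMap O K x' = 0 := by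
        rw [ha2, hb2, map_add] at hc2
        linear_combination hc2
      obtain ⟨hu, hv⟩ := main p q r hpr hqr hpq _ _ h1 h2
      have hx := hOz _ hu
      have hx' := hOz _ hv
      rw [hx, mul_zero] at ha1
      rw [hu, mul_zero] at ha2
      rw [hx', mul_zero] at hb1
      rw [hv, mul_zero] at hb2
      rw [hx, hx', ha1, hb1, ha2, hb2]
      simp
  · -- cover
    rintro (_ | p) ⟨x, y, z⟩ h
    · rw [mem_fBs_none] at h
      have hx : algebraMap O K x ≠ 0 := fun h' => h (hOz x h')
      obtain ⟨q, hq, hqz⟩ := hex (z / algebraMap O K x)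
      refine ⟨some ⟨q, hq⟩, by simp, (0, y - algebraMap F O q.1 * x, 0), ?_, ?_⟩
      · rw [mem_fB_none]; exact ⟨rfl, rfl⟩
      · rw [Prod.mk_sub_mk, Prod.mk_sub_mk, mem_fB_some]
        refine ⟨by ring, ?_⟩
        rw [sub_zero, sub_zero, hqz, div_mul_cancel₀ _ hx]
    · rw [mem_fBs_some] at h
      have hr : y - algebraMap F O p.1.1 * x ≠ 0 := sub_ne_zero.mpr h
      have hr' : algebraMap O K (y - algebraMap F O p.1.1 * x) ≠ 0 := fun h' => hr (hOz _ h')
      by_cases hs : z - p.1.2 * algebraMap O K x = 0
      · refine ⟨none, by simp, (x, algebraMap F O p.1.1 * x, p.1.2 * algebraMap O K x), ?_, ?_⟩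
        · rw [mem_fB_some]; exact ⟨rfl, rfl⟩
        · rw [Prod.mk_sub_mk, Prod.mk_sub_mk, mem_fB_none]
          exact ⟨by ring, hs⟩
      · obtain ⟨q, hq, hqp, hql⟩ := hline p.1 p.2
          ((z - p.1.2 * algebraMap O K x) / algebraMap O K (y - algebraMap F O p.1.1 * x))
          (div_ne_zero hs hr')
        have hd : q.1 - p.1.1 ≠ 0 := by
          intro h'
          exact hqp (hfst q hq p.1 p.2 (sub_eq_zero.mp h'))
        have hinv : (algebraMap F O q.1 - algebraMap F O p.1.1) *
            algebraMap F O (q.1 - p.1.1)⁻¹ = 1 := by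
          rw [← map_sub, ← map_mul, mul_inv_cancel₀ hd, map_one]
        set v : O := algebraMap F O (q.1 - p.1.1)⁻¹ * (y - algebraMap F O p.1.1 * x) with hv
        have h2 : (algebraMap F O q.1 - algebraMap F O p.1.1) * v =
            y - algebraMap F O p.1.1 * x := by
          rw [hv, ← mul_assoc, hinv, one_mul]
        have h3 : (algebraMap F K q.1 - algebraMap F K p.1.1) * algebraMap O K v =
            algebraMap O K (y - algebraMap F O p.1.1 * x) := by
          rw [← h2]
          simp only [map_mul, map_sub, hmap]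
        have h4 : (q.2 - p.1.2) * algebraMap O K v = z - p.1.2 * algebraMap O K x := by
          rw [hql, mul_assoc, h3, div_mul_cancel₀ _ hr']
        refine ⟨some ⟨q, hq⟩, ?_, (x - v, algebraMap F O p.1.1 * (x - v),
          p.1.2 * algebraMap O K (x - v)), ?_, ?_⟩
        · intro h'
          apply hqp
          have := Option.some.inj h'
          rw [← this]
        · rw [mem_fB_some]; exact ⟨rfl, rfl⟩
        · rw [Prod.mk_sub_mk, Prod.mk_sub_mk, mem_fB_some]
          have e : x - (x - v) = v := by ring
          rw [e]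
          constructor
          · change y - algebraMap F O p.1.1 * (x - v) = algebraMap F O q.1 * v
            linear_combination -h2
          · change z - p.1.2 * algebraMap O K (x - v) = q.2 * algebraMap O K v
            rw [map_sub]
            linear_combination -h4
  · -- nontriv
    rintro (_ | p)
    · refine ⟨(0, 1, 0), ?_, ?_⟩
      · rw [mem_fB_none]; exact ⟨rfl, rfl⟩
      · intro h
        have := congrArg (fun g : O × O × K => g.2.1) h
        simp at this
    · refine ⟨(1, algebraMap F O p.1.1 * 1, p.1.2 * algebraMap O K 1), ?_, ?_⟩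
      · rw [mem_fB_some]; exact ⟨rfl, rfl⟩
      · intro h
        have := congrArg (fun g : O × O × K => g.1) h
        simp at this
  · -- proper
    rintro (_ | p)
    · refine ⟨(0, 0, 1), ?_, ?_⟩
      · rw [mem_fBs_none]
      · rw [mem_fB_none]
        rintro ⟨-, h⟩
        exact one_ne_zero h
    · refine ⟨(0, 0, 1), ?_, ?_⟩
      · rw [mem_fBs_some, mul_zero]
      · rw [mem_fB_some]
        rintro ⟨-, h⟩
        rw [map_zero, mul_zero] at h
        exact one_ne_zero h
  · -- three
    obtain ⟨p, hp, hp0⟩ := hex 0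
    obtain ⟨q, hq, hq1⟩ := hex 1
    refine ⟨none, some ⟨p, hp⟩, some ⟨q, hq⟩, by simp, by simp, ?_⟩
    intro h
    have h' := Option.some.inj h
    have h'' : p = q := congrArg Subtype.val h'
    rw [h'', hq1] at hp0
    exact one_ne_zero hp0

end Pool.Agent.U657.TGQ
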